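import Pool.Agent.H800.GP174.acr

/-! GP back0: persistent and back at zero -/

set_option autoImplicit false

open MeasureTheory ProbabilityTheory Finset Filter Topology
open Pool.Agent.H174.GP

namespace Pool.Agent.H174.GP.BK

open Pool.Agent.H800.GP174 (Good good_S good_I good_set meas_S S_succ I_succ S_sub)

/-- concatenation -/
def cat (h : ℕ) (p : (ℕ → ℝ) × (ℕ → ℝ)) (j : ℕ) : ℝ := if j ≤ h then p.1 j else p.2 (j - h)

lemma cat_meas (h : ℕ) : Measurable (cat h) := by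
  refine measurable_pi_lambda _ fun j => ?_
  by_cases hj : j ≤ h
  · have e : (fun p : (ℕ → ℝ) × (ℕ → ℝ) => cat h p j) = fun p => p.1 j := by
      funext p
      simp only [cat, if_pos hj]
    rw [e]
    exact (measurable_pi_apply j).comp measurable_fst
  · have e : (fun p : (ℕ → ℝ) × (ℕ → ℝ) => cat h p j) = fun p => p.2 (j - h) := by
      funext p
      simp only [cat, if_neg hj]
    rw [e]
    exact (measurable_pi_apply (j - h)).comp measurable_snd

lemma cat_map (h : ℕ) : Measure.map (cat h) (GA.prod GA) = GA := by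
  classical
  unfold GA
  refine Measure.eq_infinitePi _ fun s t ht => ?_
  rw [Measure.map_apply (cat_meas h) (MeasurableSet.pi s.countable_toSet fun i _ => ht i)]
  have hpre : cat h ⁻¹' (Set.pi (s : Set ℕ) t) =
      (Set.pi ((s.filter (fun j => j ≤ h) : Finset ℕ) : Set ℕ) t) ×ˢ
      (Set.pi (((s.filter (fun j => ¬ j ≤ h)).image (fun j => j - h) : Finset ℕ) : Set ℕ)
        (fun j => t (j + h))) := by
    ext p
    simp only [Set.mem_preimage, Set.mem_prod, Set.mem_pi, Finset.mem_coe, Finset.mem_filter,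
      Finset.mem_image, cat]
    constructor
    · intro h1
      refine ⟨fun i hi => ?_, ?_⟩
      · have h2 := h1 i hi.1
        rwa [if_pos hi.2] at h2
      · rintro _ ⟨i, ⟨hi, hih⟩, rfl⟩
        have h2 := h1 i hi
        rw [if_neg hih] at h2
        have e : i - h + h = i := by omega
        rw [e]
        exact h2
    · rintro ⟨h1, h2⟩ i hi
      by_cases hih : i ≤ h
      · rw [if_pos hih]
        exact h1 i ⟨hi, hih⟩
      · rw [if_neg hih]
        have h3 := h2 (i - h) ⟨i, ⟨hi, hih⟩, rfl⟩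
        have e : i - h + h = i := by omega
        rwa [e] at h3
  rw [hpre, Measure.prod_prod, Measure.infinitePi_pi _ fun i _ => ht i,
    Measure.infinitePi_pi _ fun i _ => ht (i + h), Finset.prod_image, 
    ← Finset.prod_filter_mul_prod_filter_not s (fun j => j ≤ h)]
  · congr 1
    refine Finset.prod_congr rfl fun i hi => ?_
    rw [Finset.mem_filter] at hi
    have e : i - h + h = i := by omega
    rw [e]
  · intro a ha b hb hab
    rw [Finset.mem_coe, Finset.mem_filter] at ha hb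
    simp only at hab
    omega

lemma fub (h : ℕ) {A F : Set (ℕ → ℝ)} (hA : MeasurableSet A) (hF : MeasurableSet F) {g : ℝ}
    (H : ∀ ω ∈ F, g ≤ GA.real {ω' | cat h (ω, ω') ∈ A}) (hg : 0 ≤ g) :
    GA.real F * g ≤ GA.real A := by
  have h1 : GA A = ∫⁻ ω, GA {ω' | cat h (ω, ω') ∈ A} ∂GA := by
    conv_lhs => rw [← cat_map h]
    rw [Measure.map_apply (cat_meas h) hA, Measure.prod_apply (cat_meas h hA)]
    rfl
  have h2 : ENNReal.ofReal g * GA F ≤ GA A := by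
    rw [h1]
    calc ENNReal.ofReal g * GA F = ∫⁻ _ω in F, ENNReal.ofReal g ∂GA := by
          rw [setLIntegral_const]
      _ ≤ ∫⁻ ω in F, GA {ω' | cat h (ω, ω') ∈ A} ∂GA := by
          refine setLIntegral_mono' hF fun ω hω => ?_
          rw [← ofReal_measureReal]
          exact ENNReal.ofReal_le_ofReal (H ω hω)
      _ ≤ ∫⁻ ω, GA {ω' | cat h (ω, ω') ∈ A} ∂GA := setLIntegral_le_lintegral _ _
  have h3 := ENNReal.toReal_mono (measure_ne_top GA A) h2
  rw [ENNReal.toReal_mul, ENNReal.toReal_ofReal hg] at h3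
  rw [mul_comm]
  exact h3

lemma S_cat (h : ℕ) (p : (ℕ → ℝ) × (ℕ → ℝ)) {j : ℕ} (hj : j ≤ h) : S (cat h p) j = S p.1 j := by
  unfold S
  refine Finset.sum_congr rfl fun i hi => ?_
  rw [Finset.mem_Icc] at hi
  simp only [cat, if_pos (hi.2.trans hj)]

lemma S_cat' (h : ℕ) (p : (ℕ → ℝ) × (ℕ → ℝ)) (i : ℕ) : S (cat h p) (h + i) = S p.1 h + S p.2 i := by
  induction i with
  | zero =>
    rw [Nat.add_zero, S_cat h p le_rfl]
    simp [S]
  | succ i ih =>
    rw [← Nat.add_assoc, S_succ, ih, S_succ]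
    have e : cat h p (h + i + 1) = p.2 (i + 1) := by
      have e1 : ¬ h + i + 1 ≤ h := by omega
      have e2 : h + i + 1 - h = i + 1 := by omega
      simp only [cat, if_neg e1, e2]
    rw [e]
    ring

lemma I_cat (h : ℕ) (p : (ℕ → ℝ) × (ℕ → ℝ)) {j : ℕ} (hj : j ≤ h) : Iw (cat h p) j = Iw p.1 j := by
  unfold Iw
  refine Finset.sum_congr rfl fun i hi => ?_
  rw [Finset.mem_Icc] at hi
  exact S_cat h p (hi.2.trans hj)

lemma I_cat' (h : ℕ) (p : (ℕ → ℝ) × (ℕ → ℝ)) {K : ℝ} {N : ℕ}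
    (H : ∀ j ∈ Finset.Icc 1 N, -K ≤ S p.1 h + S p.2 j) (i : ℕ) (hi : i ≤ N) :
    Iw p.1 h - i * K ≤ Iw (cat h p) (h + i) := by
  induction i with
  | zero =>
    rw [Nat.add_zero, I_cat h p le_rfl]
    simp
  | succ i ih =>
    have h1 := ih (by omega)
    have h2 := H (i + 1) (Finset.mem_Icc.2 ⟨by omega, hi⟩)
    rw [← Nat.add_assoc, I_succ, Nat.add_assoc, S_cat']
    push_cast
    linarith

lemma har (h3 : S_gharris) {b : ℕ} {A B : Set (ℕ → ℝ)}
    (hA : MeasurableSet A ∧ DepOn (Finset.Icc 1 b) A ∧ IsUpperSet A)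
    (hB : MeasurableSet B ∧ DepOn (Finset.Icc 1 b) B ∧ IsUpperSet B) :
    GA.real A * GA.real B ≤ GA.real (A ∩ B) := by
  have h4 := h3 (Finset.Icc 1 b) {0, 1} (fun i => if i = 0 then A else B)
    (fun i _ => by
      by_cases hi : i = 0
      · simp only [if_pos hi]; exact hA.1
      · simp only [if_neg hi]; exact hB.1)
    (fun i _ => by
      by_cases hi : i = 0
      · simp only [if_pos hi]; exact hA.2.1
      · simp only [if_neg hi]; exact hB.2.1)
    (fun i _ => by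
      by_cases hi : i = 0
      · simp only [if_pos hi]; exact hA.2.2
      · simp only [if_neg hi]; exact hB.2.2)
  rw [Finset.prod_pair (by norm_num)] at h4
  simp only [if_true, one_ne_zero, if_false] at h4
  refine h4.trans (measureReal_mono ?_)
  intro z hz
  simp only [Set.mem_iInter, Finset.mem_insert, Finset.mem_singleton] at hz
  have h5 := hz 0 (Or.inl rfl)
  have h6 := hz 1 (Or.inr rfl)
  simp only [if_true, one_ne_zero, if_false] at h5 h6
  exact ⟨h5, h6⟩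

/-- the set of `S_acr` -/
def PS (a b : ℕ) (R : ℝ) : Set (ℕ → ℝ) :=
  {z | (∀ j ∈ Finset.Icc a b, 0 ≤ Iw z j) ∧ R ≤ Iw z b ∧ 0 ≤ S z b}

lemma inter_good {b : ℕ} {A B : Set (ℕ → ℝ)}
    (hA : MeasurableSet A ∧ DepOn (Finset.Icc 1 b) A ∧ IsUpperSet A)
    (hB : MeasurableSet B ∧ DepOn (Finset.Icc 1 b) B ∧ IsUpperSet B) :
    MeasurableSet (A ∩ B) ∧ DepOn (Finset.Icc 1 b) (A ∩ B) ∧ IsUpperSet (A ∩ B) :=
  ⟨hA.1.inter hB.1, fun z z' hz hm => ⟨hA.2.1 z z' hz hm.1, hB.2.1 z z' hz hm.2⟩,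
    hA.2.2.inter hB.2.2⟩

lemma good_one {b : ℕ} {f : (ℕ → ℝ) → ℝ} (hf : Good b f) (x : ℝ) :
    MeasurableSet {z : ℕ → ℝ | x ≤ f z} ∧ DepOn (Finset.Icc 1 b) {z : ℕ → ℝ | x ≤ f z} ∧
      IsUpperSet {z : ℕ → ℝ | x ≤ f z} :=
  ⟨measurableSet_le measurable_const hf.meas, fun z z' hz hm => by
    show x ≤ f z'
    rw [← hf.dep z z' hz]
    exact hm, fun _ _ hz hm => le_trans hm (hf.mono hz)⟩

lemma good_A {a b k : ℕ} (hk : b ≤ k) :
    MeasurableSet {z : ℕ → ℝ | ∀ j ∈ Finset.Icc a b, (0 : ℝ) ≤ Iw z j} ∧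
      DepOn (Finset.Icc 1 k) {z : ℕ → ℝ | ∀ j ∈ Finset.Icc a b, (0 : ℝ) ≤ Iw z j} ∧
      IsUpperSet {z : ℕ → ℝ | ∀ j ∈ Finset.Icc a b, (0 : ℝ) ≤ Iw z j} :=
  good_set (b := k) (Finset.Icc a b) (fun j z => Iw z j) (fun _ => 0)
    (fun j hj => good_I ((Finset.mem_Icc.1 hj).2.trans hk))

lemma good_PS {a b k : ℕ} (hk : b ≤ k) (R : ℝ) :
    MeasurableSet (PS a b R) ∧ DepOn (Finset.Icc 1 k) (PS a b R) ∧ IsUpperSet (PS a b R) := by
  have e : PS a b R = {z : ℕ → ℝ | ∀ j ∈ Finset.Icc a b, (0 : ℝ) ≤ Iw z j} ∩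
      ({z : ℕ → ℝ | R ≤ Iw z b} ∩ {z : ℕ → ℝ | 0 ≤ S z b}) := rfl
  rw [e]
  exact inter_good (good_A hk) (inter_good (good_one (good_I hk) R) (good_one (good_S hk) 0))

lemma aG_anti {a m : ℕ} (h : a ≤ m) : aG m ≤ aG a :=
  measureReal_mono fun _ hz j hj => hz j (Finset.mem_Icc.2
    ⟨(Finset.mem_Icc.1 hj).1, (Finset.mem_Icc.1 hj).2.trans h⟩)

lemma aG_nn (m : ℕ) : 0 ≤ aG m := measureReal_nonneg

/-- lower bound for `aG m` -/
lemma aG_lower (h3 : S_gharris) {c : ℝ} {a m : ℕ} {R : ℝ} (hc : c ≤ GA.real (PS a m R)) :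
    aG a * c ≤ aG m := by
  by_cases ham : a ≤ m
  · calc aG a * c ≤ aG a * GA.real (PS a m R) := mul_le_mul_of_nonneg_left hc (aG_nn a)
      _ ≤ GA.real ({z : ℕ → ℝ | ∀ j ∈ Finset.Icc 1 a, (0 : ℝ) ≤ Iw z j} ∩ PS a m R) :=
          har h3 (b := m) (good_A ham) (good_PS le_rfl R)
      _ ≤ aG m := by
          refine measureReal_mono ?_
          rintro z ⟨hz1, hz2⟩ j hj
          rw [Finset.mem_Icc] at hj
          rcases le_total j a with h | h
          · exact hz1 j (Finset.mem_Icc.2 ⟨hj.1, h⟩)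
          · exact hz2.1 j (Finset.mem_Icc.2 ⟨h, hj.2⟩)
  · have h4 : c ≤ 1 := hc.trans measureReal_le_one
    calc aG a * c ≤ aG a * 1 := mul_le_mul_of_nonneg_left h4 (aG_nn a)
      _ = aG a := mul_one _
      _ ≤ aG m := aG_anti (by omega)

/-- lower bound for `E` -/
lemma E_lower (h3 : S_gharris) {c : ℝ} {a b : ℕ} {R : ℝ} (hab : a ≤ b)
    (hc : c ≤ GA.real (PS a b R)) : aG a * c ≤ GA.real (PS 1 b R) := by
  calc aG a * c ≤ aG a * GA.real (PS a b R) := mul_le_mul_of_nonneg_left hc (aG_nn a)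
    _ ≤ GA.real ({z : ℕ → ℝ | ∀ j ∈ Finset.Icc 1 a, (0 : ℝ) ≤ Iw z j} ∩ PS a b R) :=
        har h3 (b := b) (good_A hab) (good_PS le_rfl R)
    _ ≤ GA.real (PS 1 b R) := by
        refine measureReal_mono ?_
        rintro z ⟨hz1, hz2⟩
        refine ⟨fun j hj => ?_, hz2.2⟩
        rw [Finset.mem_Icc] at hj
        rcases le_total j a with h | h
        · exact hz1 j (Finset.mem_Icc.2 ⟨hj.1, h⟩)
        · exact hz2.1 j (Finset.mem_Icc.2 ⟨h, hj.2⟩)

/-- the event with the upper bound for `S` -/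
def PF (b : ℕ) (R v : ℝ) : Set (ℕ → ℝ) := PS 1 b R ∩ {z | S z b ≤ 2 * v}

lemma PF_meas (b : ℕ) (R v : ℝ) : MeasurableSet (PF b R v) :=
  (good_PS le_rfl R).1.inter (measurableSet_le (meas_S b) measurable_const)

lemma split (h4 : S_gmaxS) (h5 : S_gindep) {m1 b : ℕ} {R v : ℝ} (hm1 : 0 < m1) (hb : m1 < b)
    (hv : 0 ≤ v) :
    GA.real (PS 1 b R) ≤ GA.real (PF b R v) + 4 * Real.exp (-(v ^ 2 / (2 * (m1 : ℝ)))) +
      aG m1 * (4 * Real.exp (-(v ^ 2 / (2 * ((b : ℝ) - m1))))) := by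
  obtain ⟨B1, hB1⟩ : ∃ B1 : Set (ℕ → ℝ), B1 = {z | ∃ l ∈ Finset.Icc 0 m1, v ≤ |S z l - S z 0|} :=
    ⟨_, rfl⟩
  obtain ⟨B2, hB2⟩ : ∃ B2 : Set (ℕ → ℝ), B2 = {z | v ≤ S z b - S z m1} := ⟨_, rfl⟩
  obtain ⟨A1, hA1⟩ : ∃ A1 : Set (ℕ → ℝ), A1 = {z : ℕ → ℝ | ∀ j ∈ Finset.Icc 1 m1, (0 : ℝ) ≤ Iw z j} :=
    ⟨_, rfl⟩
  have hsub : PS 1 b R ⊆ (PF b R v ∪ B1) ∪ (A1 ∩ B2) := by
    intro z hz
    by_cases h6 : S z b ≤ 2 * v
    · exact Or.inl (Or.inl ⟨hz, h6⟩)
    · by_cases h7 : v ≤ S z m1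
      · refine Or.inl (Or.inr ?_)
        rw [hB1]
        refine ⟨m1, Finset.mem_Icc.2 ⟨by omega, le_rfl⟩, ?_⟩
        have e : S z 0 = 0 := by simp [S]
        rw [e, sub_zero]
        exact h7.trans (le_abs_self _)
      · refine Or.inr ⟨?_, ?_⟩
        · rw [hA1]
          intro j hj
          rw [Finset.mem_Icc] at hj
          exact hz.1 j (Finset.mem_Icc.2 ⟨hj.1, by omega⟩)
        · rw [hB2]
          show v ≤ S z b - S z m1
          push Not at h6 h7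
          linarith
  have h6 : GA.real B1 ≤ 4 * Real.exp (-(v ^ 2 / (2 * (m1 : ℝ)))) := by
    have h7 := h4 0 m1 v hm1 hv
    rw [hB1]
    simpa using h7
  have h7 : GA.real (A1 ∩ B2) = GA.real A1 * GA.real B2 := by
    refine h5 (Finset.Icc 1 m1) (Finset.Ioc m1 b) A1 B2 ?_ ?_ ?_ ?_ ?_
    · rw [Finset.disjoint_left]
      intro x hx hx'
      rw [Finset.mem_Icc] at hx
      rw [Finset.mem_Ioc] at hx'
      omega
    · rw [hA1]
      exact (good_A le_rfl).1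
    · rw [hB2]
      exact measurableSet_le measurable_const ((meas_S b).sub (meas_S m1))
    · rw [hA1]
      exact (good_A le_rfl).2.1
    · intro z z' hz hm
      rw [hB2] at hm ⊢
      show v ≤ S z' b - S z' m1
      have h8 : v ≤ S z b - S z m1 := hm
      rw [S_sub hb.le] at h8 ⊢
      rw [← Finset.sum_congr rfl hz]
      exact h8
  have h8 : GA.real B2 ≤ 4 * Real.exp (-(v ^ 2 / (2 * ((b : ℝ) - m1)))) := by
    refine le_trans (measureReal_mono ?_) (h4 m1 b v hb hv)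
    intro z hz
    rw [hB2] at hz
    exact ⟨b, Finset.mem_Icc.2 ⟨hb.le, le_rfl⟩, le_trans hz (le_abs_self _)⟩
  calc GA.real (PS 1 b R) ≤ GA.real ((PF b R v ∪ B1) ∪ (A1 ∩ B2)) := measureReal_mono hsub
    _ ≤ GA.real (PF b R v ∪ B1) + GA.real (A1 ∩ B2) := measureReal_union_le _ _
    _ ≤ (GA.real (PF b R v) + GA.real B1) + GA.real A1 * GA.real B2 := by
        rw [h7]
        exact add_le_add (measureReal_union_le _ _) le_rfl
    _ ≤ _ := by
        have h9 : GA.real A1 = aG m1 := by rw [hA1]; rfl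
        rw [h9]
        exact add_le_add (add_le_add le_rfl h6) (mul_le_mul_of_nonneg_left h8 (aG_nn m1))

/-- the last part -/
lemma tail (h2 : S_brid) {h N m : ℕ} (hm : h + N = m) (hN : 1 ≤ N) (hh : 1 ≤ h) {R v g : ℝ} (hg : 0 ≤ g)
    (hR : (N : ℝ) * (1 + 20 * Real.sqrt N) ≤ R)
    (H : ∀ y : ℝ, 0 ≤ y → y ≤ 2 * v → 
      g ≤ 1 / 2 * (1 / Real.sqrt (2 * Real.pi * N) * Real.exp (-((y + 1) ^ 2 / (2 * N))))) :
    GA.real (PF h R v) * g ≤
      GA.real {z | (∀ j ∈ Finset.Icc 1 (m - 1), 0 ≤ Iw z j) ∧ -1 ≤ S z m ∧ S z m < 0} := by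
  have hs : 0 ≤ Real.sqrt (N : ℝ) := Real.sqrt_nonneg _
  refine fub h ?_ (PF_meas h R v) ?_ hg
  · have e : {z : ℕ → ℝ | (∀ j ∈ Finset.Icc 1 (m - 1), 0 ≤ Iw z j) ∧ -1 ≤ S z m ∧ S z m < 0} =
        {z : ℕ → ℝ | ∀ j ∈ Finset.Icc 1 (m - 1), (0 : ℝ) ≤ Iw z j} ∩
          ({z : ℕ → ℝ | -1 ≤ S z m} ∩ {z : ℕ → ℝ | S z m < 0}) := rfl
    rw [e]
    exact (good_A le_rfl).1.inter ((measurableSet_le measurable_const (meas_S m)).inter
      (measurableSet_lt (meas_S m) measurable_const))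
  · intro ω hω
    obtain ⟨⟨hω1, hω2, hω3⟩, hω4⟩ := hω
    refine (H (S ω h) hω3 hω4).trans ((h2 N (S ω h) hN hω3).trans (measureReal_mono ?_))
    rintro ω' ⟨ha, hb, hc⟩
    refine ⟨fun j hj => ?_, ?_, ?_⟩
    · rw [Finset.mem_Icc] at hj
      rcases le_total j h with hjh | hjh
      · rw [I_cat h (ω, ω') hjh]
        exact hω1 j (Finset.mem_Icc.2 ⟨hj.1, hjh⟩)
      · obtain ⟨i, rfl⟩ := Nat.exists_eq_add_of_le hjh
        have h6 := I_cat' h (ω, ω') (K := 1 + 20 * Real.sqrt N) (N := N)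
          (fun j hj => by
            have h7 := hc j hj
            show -(1 + 20 * Real.sqrt N) ≤ S ω h + S ω' j
            linarith) i (by omega)
        have h8 : (i : ℝ) * (1 + 20 * Real.sqrt N) ≤ N * (1 + 20 * Real.sqrt N) := by
          refine mul_le_mul_of_nonneg_right ?_ (by positivity)
          have : i ≤ N := by omega
          exact_mod_cast this
        have h9 : R ≤ Iw ω h := hω2
        have h10 : Iw (ω, ω').1 h = Iw ω h := rfl
        rw [h10] at h6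
        linarith
    · rw [← hm, S_cat']
      show -1 ≤ S ω h + S ω' N
      linarith
    · rw [← hm, S_cat']
      show S ω h + S ω' N < 0
      linarith

/-- **Persistent and back at zero.** -/
theorem gp_back0 (h1 : S_acr) (h2 : S_brid) (h3 : S_gharris) (h5 : S_gindep) (h4 : S_gmaxS) :
    Pool.Agent.H174.GP.S_back0 := by
  intro ε hε
  obtain ⟨⟨c0, hc0, κ1, hκ1, hcr⟩, hac⟩ := h1
  obtain ⟨q, hq⟩ : ∃ q : ℝ, q = ε / 16 := ⟨_, rfl⟩
  have hq0 : 0 < q := by rw [hq]; positivity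
  obtain ⟨κ, hκ⟩ : ∃ κ : ℝ, κ = min (1 / 4) (q / (2 * (κ1 + 1))) := ⟨_, rfl⟩
  have hκ0 : 0 < κ := by rw [hκ]; exact lt_min (by norm_num) (by positivity)
  have hκ4 : κ ≤ 1 / 4 := by rw [hκ]; exact min_le_left _ _
  have hκq : κ * (2 * (κ1 + 1)) ≤ q := by
    have h6 : κ ≤ q / (2 * (κ1 + 1)) := by rw [hκ]; exact min_le_right _ _
    rwa [le_div_iff₀ (by positivity)] at h6
  obtain ⟨c, hc, hE⟩ := hac (1 / 2) (22 * (3 : ℝ) ^ (3 / 2 : ℝ)) (by norm_num) (by norm_num)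
    (by positivity)
  obtain ⟨c', hc', hm1⟩ := hac (κ / 2) 1 (by positivity) (by linarith) one_pos
  -- large `m`
  have hL : ∀ᶠ m : ℕ in atTop, 4 / c' * (m : ℝ) ^ (-q) ≤ c / 4 := by
    have h6 : Tendsto (fun m : ℕ => 4 / c' * (m : ℝ) ^ (-q)) atTop (𝓝 (4 / c' * 0)) :=
      ((tendsto_rpow_neg_atTop hq0).comp tendsto_natCast_atTop_atTop).const_mul _
    rw [mul_zero] at h6
    exact (h6.eventually_lt_const (by positivity)).mono fun m hm => hm.le
  have hL2 : ∀ᶠ m : ℕ in atTop, 12 * Real.exp 2 / c ≤ (m : ℝ) ^ (ε / 2) :=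
    ((tendsto_rpow_atTop (by positivity)).comp tendsto_natCast_atTop_atTop).eventually_ge_atTop _
  have hL3 : ∀ᶠ m : ℕ in atTop, 2 / κ + 16 / (c * c0) + 8 ≤ (m : ℝ) :=
    tendsto_natCast_atTop_atTop.eventually_ge_atTop _
  obtain ⟨m0, hm0⟩ := Filter.eventually_atTop.1 (hL.and (hL2.and hL3))
  refine ⟨m0, fun m hm => ?_⟩
  obtain ⟨ha, hb, hd⟩ := hm0 m hm
  have hp1 : 0 < 2 / κ := by positivity
  have hp2 : 0 < 16 / (c * c0) := by positivity
  have hm8 : (8 : ℝ) ≤ m := by linarith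
  have hm8' : 8 ≤ m := by exact_mod_cast hm8
  have hmp : (0 : ℝ) < m := by linarith
  have hmκ : 2 / κ ≤ m := by linarith
  have hmc : 16 / (c * c0) ≤ m := by linarith
  have hlog : 0 ≤ Real.log m := Real.log_nonneg (by linarith)
  -- the parameters
  obtain ⟨m1, hm1d⟩ : ∃ m1 : ℕ, m1 = ⌊κ * m⌋₊ := ⟨_, rfl⟩
  obtain ⟨h, hhd⟩ : ∃ h : ℕ, h = m / 2 := ⟨_, rfl⟩
  have hκm : 2 ≤ κ * m := by
    rw [div_le_iff₀ hκ0] at hmκ
    linarith
  have hm1u : (m1 : ℝ) ≤ κ * m := by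
    rw [hm1d]
    exact Nat.floor_le (by positivity)
  have hm1l : κ * m - 1 < m1 := by
    rw [hm1d]
    exact Nat.sub_one_lt_floor _
  have hm1l' : κ / 2 * m ≤ m1 := by linarith
  have hm1p : 0 < m1 := by
    have : (0 : ℝ) < m1 := by linarith
    exact_mod_cast this
  have hh1 : 2 * h ≤ m := by omega
  have hh2 : m ≤ 2 * h + 1 := by omega
  have hh1r : 2 * (h : ℝ) ≤ m := by exact_mod_cast hh1
  have hh2r : (m : ℝ) ≤ 2 * h + 1 := by exact_mod_cast hh2
  have hhm : h ≤ m := by omega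
  have hm1h : m1 < h := by
    have h6 : (m1 : ℝ) ≤ 1 / 4 * m := hm1u.trans (mul_le_mul_of_nonneg_right hκ4 hmp.le)
    have : (m1 : ℝ) < h := by linarith
    exact_mod_cast this
  obtain ⟨N, hN⟩ : ∃ N : ℕ, h + N = m := ⟨m - h, by omega⟩
  have hN1 : 1 ≤ N := by omega
  have hN2 : m ≤ 2 * N := by omega
  have hN3 : N ≤ m := by omega
  have hN2r : (m : ℝ) ≤ 2 * N := by exact_mod_cast hN2
  have hN3r : (N : ℝ) ≤ m := by exact_mod_cast hN3
  have hN1r : (1 : ℝ) ≤ N := by exact_mod_cast hN1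
  obtain ⟨v, hv⟩ : ∃ v : ℝ, v = Real.sqrt (q * m * Real.log m) := ⟨_, rfl⟩
  have hv0 : 0 ≤ v := by rw [hv]; exact Real.sqrt_nonneg _
  have hv2 : v ^ 2 = q * m * Real.log m := by rw [hv]; exact Real.sq_sqrt (by positivity)
  have hm32 : (m : ℝ) ^ (3 / 2 : ℝ) = m * Real.sqrt m := by
    rw [show (3 / 2 : ℝ) = 1 + 1 / 2 by norm_num, Real.rpow_add hmp, Real.rpow_one,
      Real.sqrt_eq_rpow]
  obtain ⟨R, hR⟩ : ∃ R : ℝ, R = 22 * (m : ℝ) ^ (3 / 2 : ℝ) := ⟨_, rfl⟩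
  -- the event `E`
  have hA : aG m * c ≤ GA.real (PS 1 h R) := by
    have h6 := hE ((h + 1) / 2) h (by omega) (by omega) (by
      have : h ≤ 2 * ((h + 1) / 2) := by omega
      have h7 : (h : ℝ) ≤ 2 * ((h + 1) / 2 : ℕ) := by exact_mod_cast this
      linarith)
    have h7 : c ≤ GA.real (PS ((h + 1) / 2) h R) := by
      refine h6.trans (measureReal_mono ?_)
      rintro z ⟨hz1, hz2, hz3⟩
      refine ⟨hz1, le_trans ?_ hz2, hz3⟩
      rw [hR, mul_assoc, ← Real.mul_rpow (by norm_num) (by positivity)]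
      refine mul_le_mul_of_nonneg_left ?_ (by norm_num)
      refine Real.rpow_le_rpow hmp.le ?_ (by norm_num)
      have : m ≤ 3 * h := by omega
      exact_mod_cast this
    refine le_trans ?_ (E_lower h3 (by omega) h7)
    exact mul_le_mul_of_nonneg_right (aG_anti (by omega)) hc.le
  have hB : aG m1 * c' ≤ aG m := by
    have h6 := hm1 m1 m hm1p (by omega) hm1l'
    refine aG_lower h3 (R := 1 * (m : ℝ) ^ (3 / 2 : ℝ)) (h6.trans (measureReal_mono ?_))
    rintro z hz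
    exact hz
  have hC := split h4 h5 (R := R) hm1p hm1h hv0
  -- first exponential
  have hX1 : 4 * Real.exp (-(v ^ 2 / (2 * (m1 : ℝ)))) ≤ c / 4 * aG m := by
    have hm1r : (0 : ℝ) < m1 := by exact_mod_cast hm1p
    have h6 : (κ1 + 1) * Real.log m ≤ v ^ 2 / (2 * (m1 : ℝ)) := by
      rw [le_div_iff₀ (by positivity), hv2]
      calc (κ1 + 1) * Real.log m * (2 * (m1 : ℝ)) ≤ (κ1 + 1) * Real.log m * (2 * (κ * m)) := by
            refine mul_le_mul_of_nonneg_left (by linarith) (by positivity)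
        _ = (κ * (2 * (κ1 + 1))) * (m * Real.log m) := by ring
        _ ≤ q * (m * Real.log m) := mul_le_mul_of_nonneg_right hκq (by positivity)
        _ = q * m * Real.log m := by ring
    have h7 : Real.exp (-(v ^ 2 / (2 * (m1 : ℝ)))) ≤ (m : ℝ) ^ (-(κ1 + 1)) := by
      rw [Real.rpow_def_of_pos hmp]
      refine Real.exp_le_exp.2 ?_
      linarith
    have h8 : (m : ℝ) ^ (-(κ1 + 1)) = (m : ℝ) ^ (-κ1) / m := by
      rw [show -(κ1 + 1) = -κ1 - 1 by ring, Real.rpow_sub hmp, Real.rpow_one]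
    have h9 := hcr m (by omega)
    have h10 : 4 * ((m : ℝ) ^ (-κ1) / m) ≤ c / 4 * (c0 * (m : ℝ) ^ (-κ1)) := by
      have h11 : 16 ≤ m * (c * c0) := by
        rw [div_le_iff₀ (by positivity)] at hmc
        exact hmc
      have h12 : 0 < (m : ℝ) ^ (-κ1) := Real.rpow_pos_of_pos hmp _
      rw [← mul_div_assoc, div_le_iff₀ hmp]
      have h13 : c / 4 * (c0 * (m : ℝ) ^ (-κ1)) * m = (m * (c * c0)) / 4 * (m : ℝ) ^ (-κ1) := by ring
      rw [h13]
      exact mul_le_mul_of_nonneg_right (by linarith) h12.le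
    calc 4 * Real.exp (-(v ^ 2 / (2 * (m1 : ℝ)))) ≤ 4 * ((m : ℝ) ^ (-κ1) / m) := by
          rw [← h8]
          linarith
      _ ≤ c / 4 * (c0 * (m : ℝ) ^ (-κ1)) := h10
      _ ≤ c / 4 * aG m := mul_le_mul_of_nonneg_left h9 (by positivity)
  -- second exponential
  have hX2 : aG m1 * (4 * Real.exp (-(v ^ 2 / (2 * ((h : ℝ) - m1))))) ≤ c / 4 * aG m := by
    have hm1h' : (m1 : ℝ) < h := by exact_mod_cast hm1h
    have hm1r : (0 : ℝ) < m1 := by exact_mod_cast hm1p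
    have h6 : q * Real.log m ≤ v ^ 2 / (2 * ((h : ℝ) - m1)) := by
      rw [le_div_iff₀ (by linarith), hv2]
      have h7 : 2 * ((h : ℝ) - m1) ≤ m := by linarith
      calc q * Real.log m * (2 * ((h : ℝ) - m1)) ≤ q * Real.log m * m :=
            mul_le_mul_of_nonneg_left h7 (by positivity)
        _ = q * m * Real.log m := by ring
    have h7 : Real.exp (-(v ^ 2 / (2 * ((h : ℝ) - m1)))) ≤ (m : ℝ) ^ (-q) := by
      rw [Real.rpow_def_of_pos hmp]
      refine Real.exp_le_exp.2 ?_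
      linarith
    have h8 : aG m1 ≤ aG m / c' := by
      rw [le_div_iff₀ hc']
      exact hB
    have h9 : 0 ≤ (m : ℝ) ^ (-q) := Real.rpow_nonneg hmp.le _
    calc aG m1 * (4 * Real.exp (-(v ^ 2 / (2 * ((h : ℝ) - m1))))) ≤
          aG m / c' * (4 * (m : ℝ) ^ (-q)) := by
          refine mul_le_mul h8 (by linarith) (by positivity) ?_
          exact div_nonneg (aG_nn m) hc'.le
      _ = (4 / c' * (m : ℝ) ^ (-q)) * aG m := by ring
      _ ≤ c / 4 * aG m := mul_le_mul_of_nonneg_right ha (aG_nn m)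
  have hD : c / 2 * aG m ≤ GA.real (PF h R v) := by linarith
  -- the last part
  obtain ⟨g, hg⟩ : ∃ g : ℝ, g = 1 / 2 * (1 / (3 * Real.sqrt m) * ((m : ℝ) ^ (-(ε / 2)) * Real.exp (-2))) :=
    ⟨_, rfl⟩
  have hsm : 0 < Real.sqrt (m : ℝ) := Real.sqrt_pos.2 hmp
  have hg0 : 0 ≤ g := by rw [hg]; positivity
  have hT := tail h2 hN hN1 (by omega) (R := R) (v := v) hg0 (by
      have h6 : Real.sqrt (N : ℝ) ≤ Real.sqrt m := Real.sqrt_le_sqrt hN3r
      have h7 : 1 ≤ Real.sqrt (m : ℝ) := by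
        rw [Real.one_le_sqrt]
        linarith
      rw [hR, hm32]
      calc (N : ℝ) * (1 + 20 * Real.sqrt N) ≤ m * (Real.sqrt m + 20 * Real.sqrt m) :=
            mul_le_mul hN3r (by linarith) (by positivity) hmp.le
        _ = 21 * (m * Real.sqrt m) := by ring
        _ ≤ 22 * (m * Real.sqrt m) := mul_le_mul_of_nonneg_right (by norm_num) (by positivity)) (by
      intro y hy0 hy
      rw [hg]
      refine mul_le_mul_of_nonneg_left ?_ (by norm_num)
      refine mul_le_mul ?_ ?_ (by positivity) (by positivity)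
      · refine one_div_le_one_div_of_le (Real.sqrt_pos.2 (by positivity)) ?_
        rw [show (3 : ℝ) = Real.sqrt 9 by
          rw [show (9 : ℝ) = 3 ^ 2 by norm_num, Real.sqrt_sq (by norm_num)], ← Real.sqrt_mul (by norm_num)]
        refine Real.sqrt_le_sqrt ?_
        have h6 : 2 * Real.pi ≤ 9 := by linarith [Real.pi_le_four]
        exact mul_le_mul h6 hN3r (by positivity) (by norm_num)
      · rw [Real.rpow_def_of_pos hmp, ← Real.exp_add]
        refine Real.exp_le_exp.2 ?_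
        have h6 : (y + 1) ^ 2 / (2 * (N : ℝ)) ≤ Real.log m * (ε / 2) + 2 := by
          rw [div_le_iff₀ (by positivity)]
          have h7 : (y + 1) ^ 2 ≤ 2 * y ^ 2 + 2 := by nlinarith [sq_nonneg (y - 1)]
          have h8 : y ^ 2 ≤ 4 * v ^ 2 := by nlinarith
          have h9 : (y + 1) ^ 2 ≤ 8 * (q * m * Real.log m) + 2 := by
            rw [← hv2]
            linarith
          have h10 : 8 * (q * m * Real.log m) + 2 ≤ (Real.log m * (ε / 2) + 2) * m := by
            rw [hq]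
            have h11 : (Real.log m * (ε / 2) + 2) * m = 8 * (ε / 16 * m * Real.log m) + 2 * m := by ring
            rw [h11]
            linarith
          have h12 : (Real.log m * (ε / 2) + 2) * m ≤ (Real.log m * (ε / 2) + 2) * (2 * N) :=
            mul_le_mul_of_nonneg_left hN2r (by positivity)
          linarith
        linarith)
  refine le_trans ?_ hT
  have hfin : (m : ℝ) ^ (-(1 / 2) - ε : ℝ) ≤ c / 2 * g := by
    have h6 : (m : ℝ) ^ (-(1 / 2) - ε : ℝ) = (Real.sqrt m)⁻¹ * ((m : ℝ) ^ (-(ε / 2)) * ((m : ℝ) ^ (ε / 2))⁻¹) := by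
      rw [Real.sqrt_eq_rpow, ← Real.rpow_neg hmp.le, ← Real.rpow_neg hmp.le, ← Real.rpow_add hmp,
        ← Real.rpow_add hmp]
      congr 1
      ring
    have h7 : ((m : ℝ) ^ (ε / 2))⁻¹ ≤ c / (12 * Real.exp 2) := by
      have e : c / (12 * Real.exp 2) = (12 * Real.exp 2 / c)⁻¹ := by rw [inv_div]
      rw [e]
      exact inv_anti₀ (by positivity) hb
    rw [h6, hg, Real.exp_neg]
    have h8 : c / 2 * (1 / 2 * (1 / (3 * Real.sqrt m) * ((m : ℝ) ^ (-(ε / 2)) * (Real.exp 2)⁻¹))) =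
        (Real.sqrt m)⁻¹ * ((m : ℝ) ^ (-(ε / 2)) * (c / (12 * Real.exp 2))) := by
      field_simp
      ring
    rw [h8]
    refine mul_le_mul_of_nonneg_left ?_ (by positivity)
    exact mul_le_mul_of_nonneg_left h7 (by positivity)
  calc (m : ℝ) ^ (-(1 / 2) - ε : ℝ) * aG m ≤ c / 2 * g * aG m :=
        mul_le_mul_of_nonneg_right hfin (aG_nn m)
    _ = c / 2 * aG m * g := by ring
    _ ≤ GA.real (PF h R v) * g := mul_le_mul_of_nonneg_right hD hg0

end Pool.Agent.H174.GP.BK
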