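import Pool.Agent.H174.GP.StI

/-! First part of Pool.Agent.H740.GP174.cov (by helper740): sums of the coefficients. -/

set_option autoImplicit false

namespace Pool.Agent.H174.GP.CovA

open Finset
open Pool.Agent.H174.GP

/-! ### The harmonic coefficients -/

lemma cH_succ (x j : ℕ) : cH (x + 1) j = cH x j + if j ≤ x + 1 then 1 / ((x : ℝ) + 1) else 0 := by
  unfold cH
  by_cases h : j ≤ x + 1
  · rw [Finset.sum_Icc_succ_top h, if_pos h]
    push_cast
    rfl
  · rw [if_neg h, Finset.Icc_eq_empty (by omega), Finset.Icc_eq_empty (by omega)]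
    simp

lemma cH_zero {x j : ℕ} (h : x < j) : cH x j = 0 := by
  unfold cH
  rw [Finset.Icc_eq_empty (by omega)]
  simp

lemma sum_ind {m n : ℕ} (h : m ≤ n) (c : ℝ) :
    ∑ j ∈ Finset.Icc 1 n, (if j ≤ m then c else 0) = m * c := by
  rw [← Finset.sum_filter]
  have h1 : (Finset.Icc 1 n).filter (fun j => j ≤ m) = Finset.Icc 1 m := by
    ext j
    simp only [Finset.mem_filter, Finset.mem_Icc]
    omega
  rw [h1, Finset.sum_const, Nat.card_Icc, nsmul_eq_mul]
  simp

lemma sum_cH {n : ℕ} (x : ℕ) (h : x ≤ n) : ∑ j ∈ Finset.Icc 1 n, cH x j = x := by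
  induction x with
  | zero =>
    rw [Finset.sum_eq_zero]
    · simp
    · intro j hj
      rw [Finset.mem_Icc] at hj
      exact cH_zero (by omega)
  | succ x ih =>
    simp only [cH_succ]
    rw [Finset.sum_add_distrib, ih (by omega), sum_ind h]
    push_cast
    have : (x : ℝ) + 1 ≠ 0 := by positivity
    field_simp

/-- multiplying by the indicator -/
lemma ind_mul {x m n : ℕ} (h : x ≤ m) (c : ℝ) :
    ∑ j ∈ Finset.Icc 1 n, cH x j * (if j ≤ m then c else 0) =
      c * ∑ j ∈ Finset.Icc 1 n, cH x j := by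
  rw [Finset.mul_sum]
  refine Finset.sum_congr rfl fun j _ => ?_
  split_ifs with hj
  · ring
  · rw [cH_zero (by omega)]
    ring

lemma diag_succ {n : ℕ} (x : ℕ) (h : x + 1 ≤ n) :
    ∑ j ∈ Finset.Icc 1 n, (cH (x + 1) j) ^ 2 =
      ∑ j ∈ Finset.Icc 1 n, (cH x j) ^ 2 + (2 - 1 / ((x : ℝ) + 1)) := by
  have h1 : ∀ j ∈ Finset.Icc 1 n, (cH (x + 1) j) ^ 2 = (cH x j) ^ 2 +
      (2 * (cH x j * (if j ≤ x + 1 then 1 / ((x : ℝ) + 1) else 0)) +
        (if j ≤ x + 1 then (1 / ((x : ℝ) + 1)) ^ 2 else 0)) := by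
    intro j _
    rw [cH_succ]
    split_ifs <;> ring
  rw [Finset.sum_congr rfl h1, Finset.sum_add_distrib, Finset.sum_add_distrib, ← Finset.mul_sum,
    ind_mul (by omega), sum_cH x (by omega), sum_ind h]
  have : (x : ℝ) + 1 ≠ 0 := by positivity
  push_cast
  field_simp
  ring

lemma diag_le {n : ℕ} (x : ℕ) (h : x ≤ n) : ∑ j ∈ Finset.Icc 1 n, (cH x j) ^ 2 ≤ 2 * x := by
  induction x with
  | zero =>
    rw [Finset.sum_eq_zero]
    · simp
    · intro j hj
      rw [Finset.mem_Icc] at hj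
      rw [cH_zero (by omega)]
      norm_num
  | succ x ih =>
    rw [diag_succ x h]
    have h1 := ih (by omega)
    have h2 : 0 ≤ 1 / ((x : ℝ) + 1) := by positivity
    push_cast
    linarith

lemma le_diag {n : ℕ} (x : ℕ) (h : x ≤ n) :
    2 * (x : ℝ) - 2 * Real.sqrt x ≤ ∑ j ∈ Finset.Icc 1 n, (cH x j) ^ 2 := by
  induction x with
  | zero =>
    simp only [Nat.cast_zero, Real.sqrt_zero, mul_zero, sub_zero]
    exact Finset.sum_nonneg fun j _ => sq_nonneg _
  | succ x ih =>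
    rw [diag_succ x h]
    have h1 := ih (by omega)
    have hx : (0 : ℝ) ≤ x := Nat.cast_nonneg x
    have h2 : 1 / ((x : ℝ) + 1) ≤ 2 * (Real.sqrt (x + 1) - Real.sqrt x) := by
      have h3 : Real.sqrt ((x : ℝ) + 1) ^ 2 = x + 1 := Real.sq_sqrt (by positivity)
      have h4 : Real.sqrt (x : ℝ) ^ 2 = x := Real.sq_sqrt hx
      have h5 : Real.sqrt (x : ℝ) ≤ Real.sqrt ((x : ℝ) + 1) := Real.sqrt_le_sqrt (by linarith)
      have h6 : 1 ≤ Real.sqrt ((x : ℝ) + 1) := Real.one_le_sqrt.2 (by linarith)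
      have h0 : 0 ≤ Real.sqrt (x : ℝ) := Real.sqrt_nonneg _
      rw [div_le_iff₀ (by positivity)]
      have h7 : (Real.sqrt ((x : ℝ) + 1) - Real.sqrt x) * (Real.sqrt ((x : ℝ) + 1) + Real.sqrt x) = 1 := by
        have : (Real.sqrt ((x : ℝ) + 1) - Real.sqrt x) * (Real.sqrt ((x : ℝ) + 1) + Real.sqrt x) =
          Real.sqrt ((x : ℝ) + 1) ^ 2 - Real.sqrt (x : ℝ) ^ 2 := by ring
        rw [this, h3, h4]
        ring
      have h8 : Real.sqrt ((x : ℝ) + 1) + Real.sqrt x ≤ 2 * ((x : ℝ) + 1) := by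
        nlinarith
      have h9 : 0 ≤ Real.sqrt ((x : ℝ) + 1) - Real.sqrt x := by linarith
      nlinarith [mul_le_mul_of_nonneg_left h8 h9]
    push_cast
    linarith

lemma off_le {n x : ℕ} (hx : 1 ≤ x) (y : ℕ) (hxy : x ≤ y) (h : y ≤ n) :
    ∑ j ∈ Finset.Icc 1 n, cH x j * cH y j ≤ 2 * x + x * (Real.log y - Real.log x) := by
  induction y, hxy using Nat.le_induction with
  | base =>
    have h1 := diag_le x h
    simp only [← pow_two]
    linarith
  | succ y hxy ih =>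
    have h1 := ih (by omega)
    have h2 : ∑ j ∈ Finset.Icc 1 n, cH x j * cH (y + 1) j =
        ∑ j ∈ Finset.Icc 1 n, cH x j * cH y j + 1 / ((y : ℝ) + 1) * x := by
      have h3 : ∀ j ∈ Finset.Icc 1 n, cH x j * cH (y + 1) j = cH x j * cH y j +
          cH x j * (if j ≤ y + 1 then 1 / ((y : ℝ) + 1) else 0) := by
        intro j _
        rw [cH_succ]
        ring
      rw [Finset.sum_congr rfl h3, Finset.sum_add_distrib, ind_mul (by omega), sum_cH x (by omega)]
    rw [h2]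
    have hy : (0 : ℝ) < y := by exact_mod_cast (by omega : 0 < y)
    have h4 : 1 / ((y : ℝ) + 1) ≤ Real.log ((y + 1 : ℕ) : ℝ) - Real.log y := by
      have h5 := Real.log_le_sub_one_of_pos (x := (y : ℝ) / (y + 1)) (by positivity)
      rw [Real.log_div hy.ne' (by positivity)] at h5
      push_cast
      have h6 : (y : ℝ) / (y + 1) - 1 = -(1 / ((y : ℝ) + 1)) := by
        field_simp
        ring
      linarith
    have h7 := mul_le_mul_of_nonneg_right h4 (Nat.cast_nonneg (α := ℝ) x)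
    linarith

/-! ### The coefficients of the integrated walk -/

lemma sum_poly (a b : ℝ) (w : ℕ) : ∑ j ∈ Finset.Icc 1 w, (a - (j : ℝ) + 1) * (b - (j : ℝ) + 1) =
    w * ((a + 1) * (b + 1)) - (a + b + 2) * (w * (w + 1) / 2) + w * (w + 1) * (2 * w + 1) / 6 := by
  induction w with
  | zero => simp
  | succ w ih =>
    rw [Finset.sum_Icc_succ_top (by omega), ih]
    push_cast
    ring

lemma cI_sum {n w w' : ℕ} (hw : w ≤ w') (h : w' ≤ n) :
    ∑ j ∈ Finset.Icc 1 n, cI w j * cI w' j =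
      (w : ℝ) * (w + 1) * (((w' : ℝ) - w) / 2 + (2 * w + 1) / 6) := by
  have h1 : ∑ j ∈ Finset.Icc 1 n, cI w j * cI w' j =
      ∑ j ∈ Finset.Icc 1 w, ((w : ℝ) - (j : ℝ) + 1) * ((w' : ℝ) - (j : ℝ) + 1) := by
    symm
    have h2 : ∀ j ∈ Finset.Icc 1 w, ((w : ℝ) - (j : ℝ) + 1) * ((w' : ℝ) - (j : ℝ) + 1) =
        cI w j * cI w' j := by
      intro j hj
      rw [Finset.mem_Icc] at hj
      unfold cI
      rw [if_pos hj.2, if_pos (hj.2.trans hw)]
    rw [Finset.sum_congr rfl h2]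
    refine Finset.sum_subset (Finset.Icc_subset_Icc_right (hw.trans h)) fun j hj hj2 => ?_
    rw [Finset.mem_Icc] at hj hj2
    unfold cI
    rw [if_neg (by omega), zero_mul]
  rw [h1, sum_poly]
  ring

end Pool.Agent.H174.GP.CovA
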