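import Pool.Agent.H174.GP.StJ
import Pool.Agent.H174.GP174.covA

/-! Copy of Pool.Agent.H383.GP174.cov3 (by helper383), importing only the first part of the module `cov`:
the covariance inequality with the exponent `√3`. -/

set_option autoImplicit false

namespace Pool.Agent.H174.GP.Cov3

open Finset
open Pool.Agent.H174.GP Pool.Agent.H174.GP.CovA

lemma exp_ge {x : ℝ} (hx : 0 ≤ x) : 1 + x + x ^ 2 / 2 + x ^ 3 / 6 ≤ Real.exp x := by
  have h1 := Real.sum_le_exp_of_nonneg hx 4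
  simp only [Finset.sum_range_succ, Finset.sum_range_zero, Nat.factorial] at h1
  norm_num at h1
  linarith

lemma exp_neg_le {x : ℝ} (hx : 0 ≤ x) : Real.exp (-x) ≤ 1 - x + x ^ 2 / 2 := by
  have h1 := exp_ge hx
  have h2 : 1 + x + x ^ 2 / 2 ≤ Real.exp x := by
    have : 0 ≤ x ^ 3 / 6 := by positivity
    linarith
  have h3 : 0 < 1 + x + x ^ 2 / 2 := by positivity
  have h4 : Real.exp (-x) * Real.exp x = 1 := by
    rw [← Real.exp_add, neg_add_cancel, Real.exp_zero]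
  have h5 : 0 < Real.exp (-x) := Real.exp_pos _
  have h6 : Real.exp (-x) * (1 + x + x ^ 2 / 2) ≤ 1 :=
    (mul_le_mul_of_nonneg_left h2 h5.le).trans h4.le
  have h7 : 1 ≤ (1 - x + x ^ 2 / 2) * (1 + x + x ^ 2 / 2) := by
    have : (1 - x + x ^ 2 / 2) * (1 + x + x ^ 2 / 2) = 1 + x ^ 4 / 4 := by ring
    rw [this]
    have : 0 ≤ x ^ 4 / 4 := by positivity
    linarith
  exact le_of_mul_le_mul_right (h6.trans h7) h3

lemma sqrt3 : Real.sqrt 3 ^ 2 = 3 := Real.sq_sqrt (by norm_num)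

lemma one_lt_sqrt3 : 1 < Real.sqrt 3 := by
  rw [Real.lt_sqrt (by norm_num)]
  norm_num

lemma sqrt3_lt : Real.sqrt 3 < 3 := by
  rw [Real.sqrt_lt' (by norm_num)]
  norm_num

/-- the elementary inequality -/
lemma rho_lt {u0 : ℝ} (h0 : 0 < u0) : ∃ c : ℝ, 0 < c ∧ ∀ u : ℝ, u0 ≤ u →
    Real.exp (-(Real.sqrt 3 * u)) * (1 + Real.sqrt 3 * u) * (1 + c) ≤
      Real.exp (-u) * (3 - Real.exp (-u) ^ 2) / 2 := by
  obtain ⟨q, hq⟩ : ∃ q : ℝ, q = Real.sqrt 3 := ⟨_, rfl⟩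
  have hq2 : q ^ 2 = 3 := by rw [hq]; exact sqrt3
  have hq1 : 1 < q := by rw [hq]; exact one_lt_sqrt3
  have hq3 : q < 3 := by rw [hq]; exact sqrt3_lt
  rw [← hq]
  have hα : 0 < q - 1 := by linarith
  have hβ : 0 < 3 - q := by linarith
  obtain ⟨κ, hκ⟩ : ∃ κ : ℝ, κ = (q - 1) ^ 3 / 4 := ⟨_, rfl⟩
  have hκ0 : 0 < κ := by rw [hκ]; positivity
  obtain ⟨c, hc⟩ : ∃ c : ℝ, c = κ * u0 ^ 3 / (1 + q * u0) := ⟨_, rfl⟩
  have hc0 : 0 < c := by rw [hc]; positivity
  refine ⟨c, hc0, fun u hu => ?_⟩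
  have hu0 : 0 < u := lt_of_lt_of_le h0 hu
  have h1 := exp_ge (x := (q - 1) * u) (by positivity)
  have h2 := exp_neg_le (x := (3 - q) * u) (by positivity)
  have e1 : Real.exp (-u) = Real.exp (-(q * u)) * Real.exp ((q - 1) * u) := by
    rw [← Real.exp_add]
    congr 1
    ring
  have e2 : Real.exp (-u) ^ 3 = Real.exp (-(q * u)) * Real.exp (-((3 - q) * u)) := by
    rw [← Real.exp_add, ← Real.exp_nat_mul]
    congr 1
    push_cast
    ring
  have e3 : Real.exp (-u) * (3 - Real.exp (-u) ^ 2) / 2 =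
      Real.exp (-(q * u)) * ((3 * Real.exp ((q - 1) * u) - Real.exp (-((3 - q) * u))) / 2) := by
    have : Real.exp (-u) * (3 - Real.exp (-u) ^ 2) / 2 = (3 * Real.exp (-u) - Real.exp (-u) ^ 3) / 2 := by
      ring
    rw [this, e2, e1]
    ring
  rw [e3, mul_assoc]
  refine mul_le_mul_of_nonneg_left ?_ (Real.exp_pos _).le
  have h3 : 1 + q * u + κ * u ^ 3 ≤ (3 * Real.exp ((q - 1) * u) - Real.exp (-((3 - q) * u))) / 2 := by
    have h4 : (3 * (1 + (q - 1) * u + ((q - 1) * u) ^ 2 / 2 + ((q - 1) * u) ^ 3 / 6) -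
        (1 - (3 - q) * u + ((3 - q) * u) ^ 2 / 2)) / 2 = 1 + q * u + κ * u ^ 3 := by
      rw [hκ]
      linear_combination (u ^ 2 / 2) * hq2
    rw [← h4]
    linarith
  refine le_trans ?_ h3
  have h5 : c * (1 + q * u0) = κ * u0 ^ 3 := by
    rw [hc]
    have : 1 + q * u0 ≠ 0 := by positivity
    field_simp
  have h6 : c * (1 + q * u) ≤ κ * u ^ 3 := by
    have h7 : (c * (1 + q * u)) * (1 + q * u0) ≤ (κ * u ^ 3) * (1 + q * u0) := by
      have h8 : (c * (1 + q * u)) * (1 + q * u0) = κ * (u0 ^ 3 * (1 + q * u)) := by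
        rw [← mul_assoc, ← h5]
        ring
      rw [h8, mul_assoc]
      refine mul_le_mul_of_nonneg_left ?_ hκ0.le
      have h9 : u0 ^ 3 ≤ u ^ 3 := pow_le_pow_left₀ h0.le hu 3
      have h10 : u0 ^ 2 ≤ u ^ 2 := pow_le_pow_left₀ h0.le hu 2
      have h11 : u0 * u * u0 ^ 2 ≤ u0 * u * u ^ 2 := mul_le_mul_of_nonneg_left h10 (by positivity)
      have h12 := mul_le_mul_of_nonneg_left h11 (by linarith : (0 : ℝ) ≤ q)
      nlinarith
    exact le_of_mul_le_mul_right h7 (by positivity)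
  nlinarith

/-- the right correlation -/
lemma right_ge {a b B11 B12 B22 : ℝ} (ha : 2 ≤ a) (hb : a ≤ b)
    (hB12 : B12 = a * (a + 1) * ((b - a) / 2 + (2 * a + 1) / 6))
    (hB11 : B11 = a * (a + 1) * ((a - a) / 2 + (2 * a + 1) / 6))
    (hB22 : B22 = b * (b + 1) * ((b - b) / 2 + (2 * b + 1) / 6)) :
    Real.sqrt (a / b) * (3 - Real.sqrt (a / b) ^ 2) / (2 * (1 + a⁻¹) ^ 2) ≤
      B12 / (Real.sqrt B11 * Real.sqrt B22) := by
  have ha0 : 0 < a := by linarith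
  have hb0 : 0 < b := by linarith
  obtain ⟨t, ht⟩ : ∃ t : ℝ, t = a⁻¹ := ⟨_, rfl⟩
  rw [← ht]
  have ht0 : 0 < t := by rw [ht]; positivity
  have hta : t * a = 1 := by rw [ht]; exact inv_mul_cancel₀ ha0.ne'
  have htb : 1 ≤ t * b := by
    have h1 := mul_le_mul_of_nonneg_left hb ht0.le
    linarith
  obtain ⟨s, hs⟩ : ∃ s : ℝ, s = Real.sqrt (a / b) := ⟨_, rfl⟩
  rw [← hs]
  have hs0 : 0 < s := by rw [hs]; positivity
  have hs2 : s ^ 2 = a / b := by rw [hs]; exact Real.sq_sqrt (by positivity)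
  have hs2b : s ^ 2 * b = a := by rw [hs2]; field_simp
  have hB12' : a ^ 2 * (3 * b - a) / 6 ≤ B12 := by
    rw [hB12]
    nlinarith [mul_pos ha0 hb0, mul_pos ha0 ha0]
  have e3 : Real.sqrt B11 ≤ Real.sqrt (a ^ 3 / 3) * (1 + t) := by
    have h1 : Real.sqrt (a ^ 3 / 3) * (1 + t) = Real.sqrt (a ^ 3 / 3 * (1 + t) ^ 2) := by
      rw [Real.sqrt_mul (by positivity), Real.sqrt_sq (by linarith)]
    rw [h1]
    apply Real.sqrt_le_sqrt
    have h2 : a ^ 3 / 3 * (1 + t) ^ 2 = a * (a + t * a) ^ 2 / 3 := by ring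
    rw [h2, hta, hB11]
    nlinarith [mul_pos ha0 ha0]
  have e4 : Real.sqrt B22 ≤ Real.sqrt (b ^ 3 / 3) * (1 + t) := by
    have h1 : Real.sqrt (b ^ 3 / 3) * (1 + t) = Real.sqrt (b ^ 3 / 3 * (1 + t) ^ 2) := by
      rw [Real.sqrt_mul (by positivity), Real.sqrt_sq (by linarith)]
    rw [h1]
    apply Real.sqrt_le_sqrt
    have h2 : b ^ 3 / 3 * (1 + t) ^ 2 = b * (b + t * b) ^ 2 / 3 := by ring
    have h3 : (b + 1) ^ 2 ≤ (b + t * b) ^ 2 := by
      apply pow_le_pow_left₀ (by linarith)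
      linarith
    have h4 : b * (b + 1) ^ 2 / 3 ≤ b * (b + t * b) ^ 2 / 3 := by
      have := mul_le_mul_of_nonneg_left h3 hb0.le
      linarith
    rw [h2, hB22]
    refine le_trans ?_ h4
    nlinarith [mul_pos hb0 hb0]
  have e5 : Real.sqrt (a ^ 3 / 3) * Real.sqrt (b ^ 3 / 3) = a * b * (b * s) / 3 := by
    rw [← Real.sqrt_mul (by positivity)]
    have h1 : a ^ 3 / 3 * (b ^ 3 / 3) = (a * b * (b * s) / 3) ^ 2 := by
      have h2 : (a * b * (b * s) / 3) ^ 2 = a ^ 2 * b ^ 2 * b * (s ^ 2 * b) / 9 := by ring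
      rw [h2, hs2b]
      ring
    rw [h1, Real.sqrt_sq (by positivity)]
  have hB11p : 0 < B11 := by rw [hB11]; nlinarith [mul_pos ha0 ha0, mul_pos (mul_pos ha0 ha0) ha0]
  have hB22p : 0 < B22 := by rw [hB22]; nlinarith [mul_pos hb0 hb0, mul_pos (mul_pos hb0 hb0) hb0]
  have h1 : Real.sqrt B11 * Real.sqrt B22 ≤ a * b * (b * s) / 3 * (1 + t) ^ 2 := by
    calc Real.sqrt B11 * Real.sqrt B22 ≤
        (Real.sqrt (a ^ 3 / 3) * (1 + t)) * (Real.sqrt (b ^ 3 / 3) * (1 + t)) :=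
          mul_le_mul e3 e4 (Real.sqrt_nonneg _) (by positivity)
      _ = (Real.sqrt (a ^ 3 / 3) * Real.sqrt (b ^ 3 / 3)) * (1 + t) ^ 2 := by ring
      _ = a * b * (b * s) / 3 * (1 + t) ^ 2 := by rw [e5]
  have h2 : 0 < Real.sqrt B11 * Real.sqrt B22 :=
    mul_pos (Real.sqrt_pos.2 hB11p) (Real.sqrt_pos.2 hB22p)
  have h3 : 0 ≤ a ^ 2 * (3 * b - a) / 6 := by
    have : 0 ≤ 3 * b - a := by linarith
    positivity
  calc s * (3 - s ^ 2) / (2 * (1 + t) ^ 2) =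
      (a ^ 2 * (3 * b - a) / 6) / (a * b * (b * s) / 3 * (1 + t) ^ 2) := by
        have h4 : a ^ 2 * (3 * b - a) = a * (s ^ 2 * b) * (3 * b - s ^ 2 * b) := by
          rw [hs2b]
          ring
        rw [h4]
        have h5 : (1 + t) ≠ 0 := by linarith
        field_simp
        ring
    _ ≤ (a ^ 2 * (3 * b - a) / 6) / (Real.sqrt B11 * Real.sqrt B22) :=
        div_le_div_of_nonneg_left h3 h2 h1
    _ ≤ B12 / (Real.sqrt B11 * Real.sqrt B22) := div_le_div_of_nonneg_right hB12' h2.le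

/-- the left correlation -/
lemma left_le {x y t E Λ P11 P12 P22 : ℝ} (hx : 0 < x) (hy : 0 < y) (ht : t < 1)
    (hE : 0 < E) (hΛ : 0 ≤ Λ) (htx : Real.sqrt x ≤ t * x) (hty : Real.sqrt y ≤ t * y)
    (hP12 : P12 ≤ 2 * x * Λ) (hP11 : 2 * x - 2 * Real.sqrt x ≤ P11)
    (hP22 : 2 * y - 2 * Real.sqrt y ≤ P22) (hxy : x ≤ E ^ 2 * y) :
    P12 / (Real.sqrt P11 * Real.sqrt P22) ≤ E * Λ / (1 - t) := by
  obtain ⟨c, hc⟩ : ∃ c : ℝ, c = Real.sqrt (2 * (1 - t)) := ⟨_, rfl⟩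
  have hc2 : c ^ 2 = 2 * (1 - t) := by rw [hc]; exact Real.sq_sqrt (by linarith)
  have hc0 : 0 < c := by
    rw [hc]
    exact Real.sqrt_pos.2 (by linarith)
  have hsx : 0 < Real.sqrt x := Real.sqrt_pos.2 hx
  have hsy : 0 < Real.sqrt y := Real.sqrt_pos.2 hy
  have hsx2 : Real.sqrt x ^ 2 = x := Real.sq_sqrt hx.le
  have hsy2 : Real.sqrt y ^ 2 = y := Real.sq_sqrt hy.le
  have e1 : c * Real.sqrt x ≤ Real.sqrt P11 := by
    apply Real.le_sqrt_of_sq_le
    rw [mul_pow, hc2, hsx2]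
    linarith
  have e2 : c * Real.sqrt y ≤ Real.sqrt P22 := by
    apply Real.le_sqrt_of_sq_le
    rw [mul_pow, hc2, hsy2]
    linarith
  have h2 : (c * Real.sqrt x) * (c * Real.sqrt y) ≤ Real.sqrt P11 * Real.sqrt P22 :=
    mul_le_mul e1 e2 (by positivity) (Real.sqrt_nonneg _)
  have h3 : 0 < (c * Real.sqrt x) * (c * Real.sqrt y) := by positivity
  have h4 : Real.sqrt x ≤ E * Real.sqrt y := by
    have h5 : Real.sqrt x ≤ Real.sqrt (E ^ 2 * y) := Real.sqrt_le_sqrt hxy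
    rwa [Real.sqrt_mul (by positivity), Real.sqrt_sq hE.le] at h5
  have h1t : 0 < 1 - t := by linarith
  calc P12 / (Real.sqrt P11 * Real.sqrt P22) ≤ 2 * x * Λ / (Real.sqrt P11 * Real.sqrt P22) :=
        div_le_div_of_nonneg_right hP12 (h3.le.trans h2)
    _ ≤ 2 * x * Λ / ((c * Real.sqrt x) * (c * Real.sqrt y)) :=
        div_le_div_of_nonneg_left (by positivity) h3 h2
    _ = Real.sqrt x * Λ / (Real.sqrt y * (1 - t)) := by
        have h5 : (c * Real.sqrt x) * (c * Real.sqrt y) = 2 * (1 - t) * (Real.sqrt x * Real.sqrt y) := by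
          rw [← hc2]
          ring
        have h6 : 2 * x * Λ = 2 * Real.sqrt x ^ 2 * Λ := by rw [hsx2]
        rw [h5, h6]
        field_simp
    _ ≤ E * Λ / (1 - t) := by
        rw [div_le_div_iff₀ (by positivity) h1t]
        have h7 := mul_le_mul_of_nonneg_right h4 (by positivity : 0 ≤ Λ * (1 - t))
        linarith

/-- **Covariance inequality with the exponent `√3`.** -/
theorem gp_cov3 : Pool.Agent.H174.GP.S_cov3 := by
  intro h hh
  have hu0 : 0 < Real.log (1 + h) / 2 := by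
    have := Real.log_pos (by linarith : 1 < 1 + h)
    linarith
  obtain ⟨c, hc0, hc⟩ := rho_lt hu0
  refine ⟨max 4 ⌈(14 / c) ^ 2⌉₊, le_max_of_le_left (by norm_num), fun w w' n hw hww hn hn' => ?_⟩
  have hw4 : 4 ≤ w := (le_max_left _ _).trans hw
  have hwc : ⌈(14 / c) ^ 2⌉₊ ≤ w := (le_max_right _ _).trans hw
  have ha4 : (4 : ℝ) ≤ w := by exact_mod_cast hw4
  have ha0 : (0 : ℝ) < w := by linarith
  have hac : (14 / c) ^ 2 ≤ w := (Nat.le_ceil _).trans (by exact_mod_cast hwc)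
  have hle : (w : ℝ) ≤ w' := by
    have h1 : 0 < h * (w : ℝ) := mul_pos hh ha0
    linarith
  have hleN : w ≤ w' := by exact_mod_cast hle
  have hb0 : (0 : ℝ) < w' := by linarith
  -- the parameter t
  obtain ⟨t, ht⟩ : ∃ t : ℝ, t = (Real.sqrt w)⁻¹ := ⟨_, rfl⟩
  have hsw : 0 < Real.sqrt w := Real.sqrt_pos.2 ha0
  have ht0 : 0 < t := by rw [ht]; positivity
  have hts : t * Real.sqrt w = 1 := by rw [ht]; exact inv_mul_cancel₀ hsw.ne'
  have htw : t ^ 2 * w = 1 := by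
    have h1 : Real.sqrt (w : ℝ) ^ 2 = w := Real.sq_sqrt ha0.le
    calc t ^ 2 * w = (t * Real.sqrt w) ^ 2 := by rw [mul_pow, h1]
      _ = 1 := by rw [hts, one_pow]
  have ht2 : t ≤ 1 / 2 := by
    have h1 : (2 : ℝ) ≤ Real.sqrt w := Real.le_sqrt_of_sq_le (by linarith)
    have h2 := mul_le_mul_of_nonneg_left h1 ht0.le
    linarith
  have htc : 14 * t ≤ c := by
    have h1 : 14 / c ≤ Real.sqrt w := Real.le_sqrt_of_sq_le hac
    rw [div_le_iff₀ hc0] at h1
    have h2 := mul_le_mul_of_nonneg_left h1 ht0.le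
    have h3 : t * (Real.sqrt w * c) = c := by rw [← mul_assoc, hts, one_mul]
    linarith
  have htinv : (w : ℝ)⁻¹ = t ^ 2 := by
    rw [inv_eq_one_div, div_eq_iff ha0.ne', htw]
  -- the powers
  have hq1 := one_lt_sqrt3
  obtain ⟨X, hX⟩ : ∃ X : ℝ, X = (w : ℝ) ^ Real.sqrt 3 := ⟨_, rfl⟩
  obtain ⟨Y, hY⟩ : ∃ Y : ℝ, Y = (w' : ℝ) ^ Real.sqrt 3 := ⟨_, rfl⟩
  have hXw : (w : ℝ) ≤ X := by
    have h1 := Real.rpow_le_rpow_of_exponent_le (by linarith : (1 : ℝ) ≤ w) hq1.le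
    rwa [Real.rpow_one, ← hX] at h1
  have hYw : (w' : ℝ) ≤ Y := by
    have h1 := Real.rpow_le_rpow_of_exponent_le (by linarith : (1 : ℝ) ≤ w') hq1.le
    rwa [Real.rpow_one, ← hY] at h1
  have hX0 : 0 < X := by linarith
  have hY0 : 0 < Y := by linarith
  have hlX : Real.log X = Real.sqrt 3 * Real.log w := by rw [hX, Real.log_rpow ha0]
  have hlY : Real.log Y = Real.sqrt 3 * Real.log w' := by rw [hY, Real.log_rpow hb0]
  have hxX : X ≤ (xr w : ℝ) := by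
    rw [hX]
    exact Nat.le_ceil _
  have hyY : Y ≤ (xr w' : ℝ) := by
    rw [hY]
    exact Nat.le_ceil _
  have hxX' : (xr w : ℝ) ≤ X * (1 + t ^ 2) := by
    have h1 : (xr w : ℝ) < X + 1 := by
      rw [hX]
      exact Nat.ceil_lt_add_one (Real.rpow_nonneg ha0.le _)
    have h2 : 1 ≤ t ^ 2 * X := by
      rw [← htw]
      exact mul_le_mul_of_nonneg_left hXw (sq_nonneg t)
    linarith
  have hyY' : (xr w' : ℝ) ≤ Y * (1 + t ^ 2) := by
    have h1 : (xr w' : ℝ) < Y + 1 := by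
      rw [hY]
      exact Nat.ceil_lt_add_one (Real.rpow_nonneg hb0.le _)
    have h2 : 1 ≤ t ^ 2 * Y := by
      rw [← htw]
      exact mul_le_mul_of_nonneg_left (hle.trans hYw) (sq_nonneg t)
    linarith
  have hx0 : 0 < (xr w : ℝ) := lt_of_lt_of_le hX0 hxX
  have hy0 : 0 < (xr w' : ℝ) := lt_of_lt_of_le hY0 hyY
  have hmono : xr w ≤ xr w' := by
    unfold xr
    exact Nat.ceil_mono (Real.rpow_le_rpow ha0.le hle (by linarith))
  have hx1 : 1 ≤ xr w := by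
    have : 0 < xr w := by exact_mod_cast hx0
    omega
  -- u
  obtain ⟨u, hu⟩ : ∃ u : ℝ, u = (Real.log w' - Real.log w) / 2 := ⟨_, rfl⟩
  have huu : Real.log (1 + h) / 2 ≤ u := by
    have h1 : Real.log ((1 + h) * w) ≤ Real.log w' := Real.log_le_log (by positivity) hww
    rw [Real.log_mul (by positivity) ha0.ne'] at h1
    rw [hu]
    linarith
  have hupos : 0 < u := lt_of_lt_of_le hu0 huu
  have hrho := hc u huu
  -- the left side
  have h12 := off_le (n := n) (x := xr w) hx1 (xr w') hmono hn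
  have h11 := le_diag (n := n) (xr w) (hmono.trans hn)
  have h22 := le_diag (n := n) (xr w') hn
  have hlog : Real.log (xr w') - Real.log (xr w) ≤ 2 * (Real.sqrt 3 * u) + t ^ 2 := by
    have h1 : Real.log (xr w') ≤ Real.log (Y * (1 + t ^ 2)) := Real.log_le_log hy0 hyY'
    have h2 : Real.log X ≤ Real.log (xr w) := Real.log_le_log hX0 hxX
    have h3 : Real.log (1 + t ^ 2) ≤ t ^ 2 := by
      have := Real.log_le_sub_one_of_pos (by positivity : 0 < 1 + t ^ 2)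
      linarith
    rw [Real.log_mul hY0.ne' (by positivity), hlY] at h1
    rw [hlX] at h2
    have h4 : 2 * (Real.sqrt 3 * u) = Real.sqrt 3 * Real.log w' - Real.sqrt 3 * Real.log w := by
      rw [hu]
      ring
    linarith
  have hsqrt : ∀ z : ℝ, (w : ℝ) ≤ z → Real.sqrt z ≤ t * z := by
    intro z hz
    have h1 : Real.sqrt w ≤ Real.sqrt z := Real.sqrt_le_sqrt hz
    have h2 : Real.sqrt z ^ 2 = z := Real.sq_sqrt (by linarith)
    have h3 : 1 ≤ t * Real.sqrt z := by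
      rw [← hts]
      exact mul_le_mul_of_nonneg_left h1 ht0.le
    have h4 : t * z = t * Real.sqrt z * Real.sqrt z := by
      rw [mul_assoc, ← pow_two, h2]
    rw [h4]
    exact le_mul_of_one_le_left (Real.sqrt_nonneg _) h3
  obtain ⟨G, hG⟩ : ∃ G : ℝ, G = Real.exp (-(Real.sqrt 3 * u)) := ⟨_, rfl⟩
  have hG0 : 0 < G := by rw [hG]; exact Real.exp_pos _
  have hGY : G ^ 2 * Y = X := by
    have h1 : Y = Real.exp (Real.sqrt 3 * Real.log w') := by rw [← hlY, Real.exp_log hY0]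
    have h2 : X = Real.exp (Real.sqrt 3 * Real.log w) := by rw [← hlX, Real.exp_log hX0]
    rw [h1, h2, hG, ← Real.exp_nat_mul, ← Real.exp_add]
    congr 1
    push_cast
    rw [hu]
    ring
  have hsu : 0 ≤ Real.sqrt 3 * u := by positivity
  have hL := left_le (x := xr w) (y := xr w') (t := t) (E := G * (1 + t ^ 2 / 2))
    (Λ := (1 + Real.sqrt 3 * u) * (1 + t ^ 2 / 2)) hx0 hy0 (by linarith) (by positivity)
    (by positivity) (hsqrt _ (hXw.trans hxX)) (hsqrt _ (hle.trans (hYw.trans hyY)))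
    (h12.trans (by
      have h1 := mul_le_mul_of_nonneg_left hlog hx0.le
      have h2 : 0 ≤ (xr w : ℝ) * (Real.sqrt 3 * u * t ^ 2) := by positivity
      linarith)) h11 h22 (by
      have h1 : (G * (1 + t ^ 2 / 2)) ^ 2 * (xr w' : ℝ) ≥ G ^ 2 * (1 + t ^ 2) * Y := by
        have h2 : 1 + t ^ 2 ≤ (1 + t ^ 2 / 2) ^ 2 := by linarith [sq_nonneg (t ^ 2)]
        rw [mul_pow]
        refine mul_le_mul (mul_le_mul_of_nonneg_left h2 (sq_nonneg G)) hyY hY0.le (by positivity)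
      refine hxX'.trans (le_trans (le_of_eq ?_) h1)
      rw [← hGY]
      ring)
  refine hL.trans ?_
  -- the right side
  have i12 := cI_sum (n := n) hleN hn'
  have i11 := cI_sum (n := n) (le_refl w) (hleN.trans hn')
  have i22 := cI_sum (n := n) (le_refl w') hn'
  simp only [← pow_two] at i11 i22
  have hR := right_ge (by linarith) hle i12 i11 i22
  refine le_trans ?_ hR
  have hσ : Real.sqrt ((w : ℝ) / w') = Real.exp (-u) := by
    have h1 : (w : ℝ) / w' = Real.exp (-u) ^ 2 := by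
      have h2 : (w : ℝ) / w' = Real.exp (Real.log w - Real.log w') := by
        rw [Real.exp_sub, Real.exp_log ha0, Real.exp_log hb0]
      rw [h2, ← Real.exp_nat_mul]
      congr 1
      push_cast
      rw [hu]
      ring
    rw [h1, Real.sqrt_sq (Real.exp_pos _).le]
  rw [hσ, htinv, div_le_div_iff₀ (by linarith) (by positivity)]
  rw [← hG] at hrho
  have hfin : (1 + t ^ 2 / 2) ^ 2 * (1 + t ^ 2) ^ 2 ≤ (1 + c) * (1 - t) := by
    have h1 : t ^ 2 ≤ t / 2 := by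
      have h2 := mul_le_mul_of_nonneg_left ht2 ht0.le
      linarith
    have h2 : (1 + t ^ 2 / 2) ^ 2 ≤ (1 + t / 4) ^ 2 :=
      pow_le_pow_left₀ (by positivity) (by linarith) 2
    have h3 : (1 + t ^ 2) ^ 2 ≤ (1 + t / 2) ^ 2 :=
      pow_le_pow_left₀ (by positivity) (by linarith) 2
    have h4 : (1 + t ^ 2 / 2) ^ 2 * (1 + t ^ 2) ^ 2 ≤ (1 + t / 4) ^ 2 * (1 + t / 2) ^ 2 :=
      mul_le_mul h2 h3 (by positivity) (by positivity)
    have h5 : (1 + t / 4) ^ 2 ≤ 1 + t := by linarith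
    have h6 : (1 + t / 2) ^ 2 ≤ 1 + 2 * t := by linarith
    have h7 : (1 + t / 4) ^ 2 * (1 + t / 2) ^ 2 ≤ (1 + t) * (1 + 2 * t) :=
      mul_le_mul h5 h6 (by positivity) (by linarith)
    have h8 : c * t ≤ c / 2 := by
      have h9 := mul_le_mul_of_nonneg_left ht2 hc0.le
      linarith
    linarith
  have hσ0 : 0 < Real.exp (-u) := Real.exp_pos _
  have h1 : 0 ≤ G * (1 + Real.sqrt 3 * u) := by positivity
  have h2 := mul_le_mul_of_nonneg_left hfin h1
  have h3 := mul_le_mul_of_nonneg_right hrho (by linarith : 0 ≤ 1 - t)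
  have e1 : G * (1 + t ^ 2 / 2) * ((1 + Real.sqrt 3 * u) * (1 + t ^ 2 / 2)) * (2 * (1 + t ^ 2) ^ 2) =
      2 * (G * (1 + Real.sqrt 3 * u) * ((1 + t ^ 2 / 2) ^ 2 * (1 + t ^ 2) ^ 2)) := by ring
  have e2 : Real.exp (-u) * (3 - Real.exp (-u) ^ 2) * (1 - t) =
      2 * (Real.exp (-u) * (3 - Real.exp (-u) ^ 2) / 2 * (1 - t)) := by ring
  rw [e1, e2]
  linarith

end Pool.Agent.H174.GP.Cov3
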